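import Pool.Agent.Q295.LS.Stm

/-!
# Project LS: one step
-/

set_option autoImplicit false

namespace Pool.Agent.Q295.LS

open Finset Equiv
open Pool.Agent.Y998.ST
open Pool.Agent.Y998.LP (NN tdist NN_nonneg)
open Pool.Agent.Y998.CN (nn_trans law_sum)

theorem sqrt_pow (s : ℝ) (hs : 0 < s) (d : ℕ) :
    (1 / Real.sqrt s) ^ d = s ^ (-((d : ℝ) / 2)) := by
  rw [Real.sqrt_eq_rpow, one_div, ← Real.rpow_neg hs.le, ← Real.rpow_natCast, ← Real.rpow_mul hs.le]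
  congr 1
  ring

/-- bounds of the return probabilities -/
theorem qbound (d : ℕ) (hd : 3 ≤ d) : ∃ Z : ℝ, 0 ≤ Z ∧ ∀ (L : ℕ) [NeZero L], 3 ≤ L →
    ∀ t : ℝ, 1 ≤ t → ∀ n : ℕ, 1 ≤ n → ∃ Q : ℕ → ℝ,
      (∀ m, 0 < m → m < n → ∀ a b, qq (nnRate d L) (m * t) a b ≤ Q m) ∧
      ∑ m ∈ Finset.Ioo 0 n, Q m ≤
        Z * (n * t ^ (1 - (d : ℝ) / 2) + (n : ℝ) ^ 2 * t / (L : ℝ) ^ d) := by
  have hd3 : (3 : ℝ) ≤ d := by exact_mod_cast hd
  have hsum : Summable fun n : ℕ => 1 / (n : ℝ) ^ ((d : ℝ) / 2) :=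
    Real.summable_one_div_nat_rpow.2 (by linarith)
  obtain ⟨Z, hZ⟩ : ∃ Z : ℝ, Z = ∑' n : ℕ, 1 / (n : ℝ) ^ ((d : ℝ) / 2) := ⟨_, rfl⟩
  have hZ0 : 0 ≤ Z := by rw [hZ]; exact tsum_nonneg fun n => by positivity
  refine ⟨2 ^ d * (1 + Z), by positivity, fun L _ hL t ht n hn => ?_⟩
  have ht0 : 0 < t := by linarith
  have hLpos : (0 : ℝ) < L := by exact_mod_cast (show 0 < L by omega)
  obtain ⟨Q, hQdef⟩ : ∃ Q : ℕ → ℝ, Q = fun m : ℕ =>
    2 ^ d * ((1 / (L : ℝ)) ^ d + t ^ (-((d : ℝ) / 2)) * (1 / (m : ℝ) ^ ((d : ℝ) / 2))) := ⟨_, rfl⟩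
  refine ⟨Q, ?_, ?_⟩
  · intro m hm _ a b
    have hm0 : (0 : ℝ) < m := by exact_mod_cast hm
    have hmt : (0 : ℝ) < m * t := by positivity
    refine (qq_torus hL hmt a b).trans ?_
    refine (add_pow_le (by positivity) (by positivity) d).trans ?_
    rw [sqrt_pow _ hmt, hQdef]
    have h1 : ((m : ℝ) * t) ^ (-((d : ℝ) / 2)) =
        t ^ (-((d : ℝ) / 2)) * (1 / (m : ℝ) ^ ((d : ℝ) / 2)) := by
      rw [Real.mul_rpow hm0.le ht0.le, Real.rpow_neg hm0.le ((d : ℝ) / 2)]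
      ring
    rw [h1]
    refine mul_le_mul_of_nonneg_right ?_ (by positivity)
    exact pow_le_pow_right₀ (by norm_num) (by omega)
  · have hS : ∑ m ∈ Finset.Ioo 0 n, Q m ≤
        2 ^ d * (n * (1 / (L : ℝ)) ^ d + t ^ (-((d : ℝ) / 2)) * Z) := by
      rw [hQdef, ← Finset.mul_sum]
      refine mul_le_mul_of_nonneg_left ?_ (by positivity)
      rw [Finset.sum_add_distrib, ← Finset.mul_sum]
      refine add_le_add ?_ (mul_le_mul_of_nonneg_left ?_ (by positivity))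
      · rw [Finset.sum_const, nsmul_eq_mul]
        refine mul_le_mul_of_nonneg_right ?_ (by positivity)
        rw [Nat.card_Ioo]
        exact_mod_cast (show n - 0 - 1 ≤ n by omega)
      · rw [hZ]
        exact hsum.sum_le_tsum _ fun m _ => by positivity
    refine hS.trans ?_
    have hn1 : (1 : ℝ) ≤ n := by exact_mod_cast hn
    have e1 : (n : ℝ) * (1 / (L : ℝ)) ^ d ≤ (n : ℝ) ^ 2 * t / (L : ℝ) ^ d := by
      rw [one_div_pow, mul_one_div]
      refine div_le_div_of_nonneg_right ?_ (by positivity)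
      nlinarith
    have e2 : t ^ (-((d : ℝ) / 2)) ≤ n * t ^ (1 - (d : ℝ) / 2) := by
      have h2 : t ^ (-((d : ℝ) / 2)) ≤ t ^ (1 - (d : ℝ) / 2) :=
        Real.rpow_le_rpow_of_exponent_le ht (by linarith)
      have h3 : 0 ≤ t ^ (1 - (d : ℝ) / 2) := by positivity
      nlinarith
    have e3 : 0 ≤ (n : ℝ) ^ 2 * t / (L : ℝ) ^ d := by positivity
    have e4 : 0 ≤ (n : ℝ) * t ^ (1 - (d : ℝ) / 2) := by positivity
    calc 2 ^ d * (n * (1 / (L : ℝ)) ^ d + t ^ (-((d : ℝ) / 2)) * Z)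
        ≤ 2 ^ d * ((n : ℝ) ^ 2 * t / (L : ℝ) ^ d + (n * t ^ (1 - (d : ℝ) / 2)) * Z) := by
          gcongr
      _ ≤ 2 ^ d * ((1 + Z) * (n * t ^ (1 - (d : ℝ) / 2) + (n : ℝ) ^ 2 * t / (L : ℝ) ^ d)) := by
          refine mul_le_mul_of_nonneg_left ?_ (by positivity)
          nlinarith [mul_nonneg hZ0 e3, mul_nonneg hZ0 e4]
      _ = _ := by ring

theorem exp_two_le {V : Type} [Fintype V] [DecidableEq V] {J : V → V → ℝ}
    (hJ : ∀ x y, 0 ≤ J x y) {t : ℝ} (ht : 0 ≤ t) {F G H : Perm V → ℝ}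
    (h : ∀ g, F g ≤ 2 * G g + 2 * H g) :
    stirExp J t F ≤ 2 * stirExp J t G + 2 * stirExp J t H := by
  refine (exp_mono hJ ht h).trans (le_of_eq ?_)
  unfold stirExp
  rw [Finset.mul_sum, Finset.mul_sum, ← Finset.sum_add_distrib]
  exact Finset.sum_congr rfl fun g _ => by ring

theorem t_STP (hQF : J_QF2) (hNEA : J_NEA) (hFAR : J_FAR) (hTAI : J_TAI) (hHEA : J_HEA)
    (hTWT : J_TWT) (hTRI : J_TRI) (hBOX : J_BOX) (hBAL : J_BAL) : J_STP := by
  intro d hd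
  obtain ⟨C₁, hC₁, hTW⟩ := hTWT d hd
  obtain ⟨C₂, hC₂, hdist⟩ := Pool.Agent.Y998.LQ.t_dist d (by omega)
  obtain ⟨Z, hZ, hQb⟩ := qbound d hd
  have hd0 : (0 : ℝ) ≤ d := by positivity
  obtain ⟨K₁, hK₁⟩ : ∃ K₁ : ℝ, K₁ = C₁ * 2 ^ d + C₁ + 2 ^ d * (C₂ * d) + 2 ^ d * (2 * Z) := ⟨_, rfl⟩
  have hK₁0 : 0 ≤ K₁ := by rw [hK₁]; positivity
  refine ⟨16 * d + 4 + d ^ 2 + 2 * K₁ + 16 * C₁, by positivity, ?_⟩
  intro L _ hL t ht n D r ω ρ hn hD hDL hr hrL hρ u w hw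
  have ht0 : 0 < t := by linarith
  have hLpos : (0 : ℝ) < L := by exact_mod_cast (show 0 < L by omega)
  obtain ⟨J, hJdef⟩ : ∃ J, J = nnRate d L := ⟨_, rfl⟩
  have hJ : ∀ x y, 0 ≤ J x y := by rw [hJdef]; exact nn_nonneg
  have hs : ∀ x y, J x y = J y x := by rw [hJdef]; exact nn_symm
  have h0 : ∀ x, J x x = 0 := by rw [hJdef]; exact nn_diag hL
  have htr : ∀ x y z, J (x + z) (y + z) = J x y := by
    rw [hJdef]; exact fun x y z => nn_trans x y z
  obtain ⟨Q, hQ, hQs⟩ := hQb L hL t ht n hn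
  have hbx := hBOX d L r hr hrL
  have hbxD := hBOX d L D (by omega) hDL 0
  obtain ⟨hbal1, hbal2, hbal3, hbal4⟩ := hBAL d L
  obtain ⟨S', hS'1, hS'2, hS'3, hS'4⟩ := hbal4 D (by omega) hDL
  -- real quantities
  have hn1 : (1 : ℝ) ≤ n := by exact_mod_cast hn
  have hD2 : (2 : ℝ) ≤ D := by exact_mod_cast hD
  have hr1 : (1 : ℝ) ≤ r := by exact_mod_cast hr
  obtain ⟨Dd, hDd⟩ : ∃ Dd : ℝ, Dd = (D : ℝ) ^ d := ⟨_, rfl⟩
  have hDd2 : 2 ≤ Dd := by
    rw [hDd]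
    calc (2 : ℝ) ≤ D := hD2
      _ = (D : ℝ) ^ 1 := (pow_one _).symm
      _ ≤ (D : ℝ) ^ d := pow_le_pow_right₀ (by linarith) (by omega)
  obtain ⟨rd, hrd⟩ : ∃ rd : ℝ, rd = (r : ℝ) ^ d := ⟨_, rfl⟩
  have hrd1 : 1 ≤ rd := by rw [hrd]; exact one_le_pow₀ hr1
  obtain ⟨zc, hzc⟩ : ∃ zc : ℝ, zc = Zc d L r ω ρ D := ⟨_, rfl⟩
  obtain ⟨e, he⟩ : ∃ e : ℝ, e = er2 d L n D t := ⟨_, rfl⟩
  obtain ⟨a, ha⟩ : ∃ a : ℝ, a = n * t ^ (1 - (d : ℝ) / 2) + (n : ℝ) ^ 2 * t / (L : ℝ) ^ d :=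
    ⟨_, rfl⟩
  have ha0 : 0 ≤ a := by rw [ha]; positivity
  have htD0 : 0 ≤ t / Dd := by positivity
  have hDt0 : 0 ≤ (D : ℝ) / Real.sqrt t := by positivity
  have hea : e = a + t / Dd + D / Real.sqrt t := by rw [he, ha, hDd]; unfold er2; ring
  have he0 : 0 ≤ e := by rw [hea]; positivity
  have hzc0 : 0 ≤ zc := by rw [hzc]; unfold Zc; positivity
  -- the function
  obtain ⟨ψ, hψ⟩ : ∃ ψ : (Fin d → ZMod L) → ℝ,
    ψ = fun x => bx d L r u x - bx d L r (u + w) x := ⟨_, rfl⟩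
  have hψM : ∀ y, |ψ y| ≤ 1 / rd := by
    intro y
    rw [hψ, hrd]
    have a1 := (hbx u).2.2.2.1 y
    have a2 := (hbx u).2.2.2.2.1 y
    have b1 := (hbx (u + w)).2.2.2.1 y
    have b2 := (hbx (u + w)).2.2.2.2.1 y
    rw [abs_le]
    constructor <;> linarith
  have hψA : ∑ y, |ψ y| ≤ 2 := by
    have h1 : ∀ y, |ψ y| ≤ bx d L r u y + bx d L r (u + w) y := by
      intro y
      rw [hψ]
      have a1 := (hbx u).2.2.2.1 y
      have b1 := (hbx (u + w)).2.2.2.1 y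
      rw [abs_le]
      constructor <;> linarith
    refine (Finset.sum_le_sum fun y _ => h1 y).trans (le_of_eq ?_)
    rw [Finset.sum_add_distrib, (hbx u).2.2.1, (hbx (u + w)).2.2.1]
    norm_num
  have hsupp : ∀ y, ψ y ≠ 0 → y ∈ ball d L (r + ω) u := by
    intro y hy
    by_cases h1 : y ∈ bset d L r u
    · have h2 := (hbx u).2.2.2.2.2.1 y h1
      unfold ball
      rw [Finset.mem_filter]
      exact ⟨Finset.mem_univ _, fun i => (h2 i).trans (by omega)⟩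
    · by_cases h2 : y ∈ bset d L r (u + w)
      · have h3 := (hbx (u + w)).2.2.2.2.2.1 y h2
        have h4 : u + w ∈ ball d L ω u := by
          unfold ball
          rw [Finset.mem_filter]
          refine ⟨Finset.mem_univ _, fun i => ?_⟩
          have : (u + w) i - u i = w i := by simp
          rw [this]
          exact hw i
        have h5 : y ∈ ball d L r (u + w) := by
          unfold ball
          rw [Finset.mem_filter]
          exact ⟨Finset.mem_univ _, h3⟩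
        have h6 := hbal3 ω r u (u + w) y h4 h5
        rwa [add_comm ω r] at h6
      · exfalso
        apply hy
        rw [hψ]
        beta_reduce
        rw [(hbx u).2.1 y, (hbx (u + w)).2.1 y, if_neg h1, if_neg h2, sub_zero]
  -- splitting
  obtain ⟨W, hW⟩ : ∃ W, W = ball d L (r + ω + ρ) u := ⟨_, rfl⟩
  have hstep : stirExp J t (fun g => Qf g ψ) ≤
      2 * stirExp J t (fun g => Qf g (fun x => if x ∈ W then ψ ((g ^ n) x) else 0)) +
      2 * stirExp J t (fun g => Qf g (fun x => if x ∈ W then 0 else ψ ((g ^ n) x))) := by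
    refine exp_two_le hJ ht0.le fun g => ?_
    obtain ⟨q1, q2, q3, q4, q5, q6, q7⟩ := hQF _ g
    rw [← q6 ψ n]
    refine le_trans (le_of_eq ?_) (q3 _ _)
    congr 1
    funext x
    by_cases hx : x ∈ W
    · rw [if_pos hx, if_pos hx, add_zero]
    · rw [if_neg hx, if_neg hx, zero_add]
  -- tv
  have hTW' := hTW L hL t ht n S'
  rw [← hJdef, ← ha] at hTW'
  have hcS'0 : (0 : ℝ) < S'.card := by rw [← hDd] at hS'3; linarith
  have hcS'1 : (S'.card : ℝ) ≤ 2 ^ d * Dd := by rw [hDd]; exact hS'2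
  have hcS'2 : Dd / 2 ≤ (S'.card : ℝ) := by rw [← hDd] at hS'3; linarith
  -- far
  have hfar : stirExp J t (fun g => Qf g (fun x => if x ∈ W then 0 else ψ ((g ^ n) x))) ≤
      4 * (2 * d * (n * t) / (ρ : ℝ) ^ 2 + 2 * C₁ * e) := by
    have h1 := hFAR _ J hJ t ht0.le n ψ 2 hψA W
    refine h1.trans ?_
    obtain ⟨X, hX⟩ : ∃ X : ℝ, X = 2 * d * (n * t) / (ρ : ℝ) ^ 2 + 2 * C₁ * e := ⟨_, rfl⟩
    have hX0 : 0 ≤ X := by rw [hX]; positivity
    have h2 : ∀ y, |ψ y| * stirExp J t (fun g => if (g ^ n) y ∈ W then 0 else 1) ≤ |ψ y| * X := by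
      intro y
      by_cases hy : ψ y = 0
      · rw [hy, abs_zero, zero_mul, zero_mul]
      · refine mul_le_mul_of_nonneg_left ?_ (abs_nonneg _)
        have h3 : stirExp J t (fun g => if (g ^ n) y ∈ W then 0 else 1) ≤
            stirExp J t (fun g => if (g ^ n) y ∈ ball d L ρ y then 0 else 1) := by
          refine exp_mono hJ ht0.le fun g => ?_
          by_cases h4 : (g ^ n) y ∈ ball d L ρ y
          · have h5 := hbal3 (r + ω) ρ u y _ (hsupp y hy) h4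
            rw [← hW] at h5
            rw [if_pos h4, if_pos h5]
          · rw [if_neg h4]
            split_ifs <;> norm_num
        refine h3.trans ?_
        have h4 : ∀ v ∈ S', stirExp J t (fun g => if (g ^ n) y ∈ ball d L ρ y then 0 else 1) ≤
            2 * d * (n * t) / (ρ : ℝ) ^ 2 + tv J t n 0 v := by
          intro v _
          have h5 := hTAI d L hL t ht0.le n ρ hn hρ y (v + y)
          have h6 := (hTRI _ J htr t n 0 v y).1
          rw [zero_add] at h6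
          rw [← hJdef, h6] at h5
          exact h5
        have h5 := Finset.sum_le_sum h4
        rw [Finset.sum_const, nsmul_eq_mul, Finset.sum_add_distrib, Finset.sum_const,
          nsmul_eq_mul] at h5
        obtain ⟨p, hp⟩ : ∃ p, p = stirExp J t (fun g => if (g ^ n) y ∈ ball d L ρ y then 0 else 1) :=
          ⟨_, rfl⟩
        rw [← hp] at h5 ⊢
        have h6 : C₁ * ((S'.card : ℝ) * a + t) ≤ (S'.card : ℝ) * (2 * C₁ * e) := by
          have h7 : t ≤ (S'.card : ℝ) * (2 * (t / Dd)) := by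
            have h8 : t = Dd / 2 * (2 * (t / Dd)) := by field_simp
            calc t = Dd / 2 * (2 * (t / Dd)) := h8
              _ ≤ _ := mul_le_mul_of_nonneg_right hcS'2 (by positivity)
          have h8 : (S'.card : ℝ) * a + t ≤ (S'.card : ℝ) * (2 * e) := by
            have h9 : (S'.card : ℝ) * (a + 2 * (t / Dd)) ≤ (S'.card : ℝ) * (2 * e) := by
              refine mul_le_mul_of_nonneg_left ?_ hcS'0.le
              rw [hea]; linarith
            linarith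
          calc C₁ * ((S'.card : ℝ) * a + t) ≤ C₁ * ((S'.card : ℝ) * (2 * e)) :=
                mul_le_mul_of_nonneg_left h8 hC₁.le
            _ = _ := by ring
        have h7 : (S'.card : ℝ) * p ≤ (S'.card : ℝ) * X := by
          rw [hX]
          linarith
        exact le_of_mul_le_mul_left h7 hcS'0
    have h3 : ∑ y, |ψ y| * stirExp J t (fun g => if (g ^ n) y ∈ W then 0 else 1) ≤ 2 * X := by
      refine (Finset.sum_le_sum fun y _ => h2 y).trans ?_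
      rw [← Finset.sum_mul]
      exact mul_le_mul_of_nonneg_right hψA hX0
    rw [← hX]
    linarith
  -- near
  have hnear : stirExp J t (fun g => Qf g (fun x => if x ∈ W then ψ ((g ^ n) x) else 0)) ≤
      2 * (zc / (Dd * rd)) + zc * ((d : ℝ) ^ 2 * ((ω : ℝ) ^ 2 / (n * t) *
        (1 / L + 1 / Real.sqrt (n * t)) ^ d)) / 2 + zc ^ 2 / rd ^ 2 * (K₁ * e) := by
    obtain ⟨ZZ, hZZ⟩ : ∃ ZZ, ZZ = ball d L (r + ω + ρ + D) u := ⟨_, rfl⟩
    have hScard : ((bset d L D 0).card : ℝ) = Dd := by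
      rw [hbxD.1, hDd]
      push_cast
      rfl
    have hSne : (bset d L D 0).Nonempty := ⟨0, hbxD.2.2.2.2.2.2.2.2⟩
    have h1 := hNEA _ J hJ hs h0 htr t ht0.le n hn Q (by rw [hJdef]; exact hQ) ψ (1 / rd) 2 hψM
      hψA W ZZ (bset d L D 0) S' hSne (by
        intro x hx s hs'
        rw [hW] at hx
        rw [hZZ]
        exact hbal2 (r + ω + ρ) D u x s hDL hx hs') hS'1
    refine h1.trans ?_
    rw [hScard]
    have hZc : (ZZ.card : ℝ) ≤ zc := by
      rw [hzc, hZZ]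
      unfold Zc
      exact_mod_cast hbal1 (r + ω + ρ + D) u
    have hWc : (W.card : ℝ) ≤ zc := by
      rw [hzc, hW]
      unfold Zc
      have h2 := hbal1 (r + ω + ρ) u
      have h3 : min (2 * (r + ω + ρ) + 1) L ≤ min (2 * (r + ω + ρ + D) + 1) L :=
        min_le_min_right _ (by omega)
      exact_mod_cast h2.trans (Nat.pow_le_pow_left h3 d)
    have hP : ∑ x, (∑ y, qq J (n * t) x y * ψ y) ^ 2 ≤
        (d : ℝ) ^ 2 * ((ω : ℝ) ^ 2 / (n * t) * (1 / L + 1 / Real.sqrt (n * t)) ^ d) := by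
      have h2 := hHEA d L hL (n * t) (by positivity) (bx d L r u) (by
        rw [Finset.sum_congr rfl fun y _ => abs_of_nonneg ((hbx u).2.2.2.1 y), (hbx u).2.2.1]) w
      have h3 : ∀ y, bx d L r u y - bx d L r u (y - w) = ψ y := by
        intro y
        rw [hψ]
        beta_reduce
        rw [(hbx u).2.2.2.2.2.2.1 y w]
      simp only [h3] at h2
      rw [← hJdef] at h2
      refine h2.trans ?_
      have h4 : (tdist w 0 : ℝ) ≤ d * ω := by
        have h5 : tdist w 0 ≤ d * ω := by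
          unfold tdist
          calc ∑ i, (w i - (0 : Fin d → ZMod L) i).valMinAbs.natAbs ≤ ∑ _i : Fin d, ω := by
                refine Finset.sum_le_sum fun i _ => ?_
                have : w i - (0 : Fin d → ZMod L) i = w i := by simp
                rw [this]
                exact hw i
            _ = d * ω := by rw [Finset.sum_const, Finset.card_univ, Fintype.card_fin, smul_eq_mul]
        exact_mod_cast h5
      have h5 : (tdist w 0 : ℝ) ^ 2 ≤ (d * ω) ^ 2 := pow_le_pow_left₀ (by positivity) h4 2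
      calc (tdist w 0 : ℝ) ^ 2 * (1 / (n * t) * (1 / L + 1 / Real.sqrt (n * t)) ^ d)
          ≤ (d * ω) ^ 2 * (1 / (n * t) * (1 / L + 1 / Real.sqrt (n * t)) ^ d) :=
            mul_le_mul_of_nonneg_right h5 (by positivity)
        _ = _ := by ring
    have hE : ∑ v ∈ S', (tv J t n 0 v + NN J t (swap 0 v) + 2 * ∑ m ∈ Finset.Ioo 0 n, Q m) ≤
        Dd * (K₁ * e) := by
      rw [Finset.sum_add_distrib, Finset.sum_add_distrib, Finset.sum_const, nsmul_eq_mul]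
      have h2 : ∑ v ∈ S', NN J t (swap 0 v) ≤ (S'.card : ℝ) * (C₂ * d * (D / Real.sqrt t)) := by
        have h3 : ∀ v ∈ S', NN J t (swap 0 v) ≤ C₂ * d * (D / Real.sqrt t) := by
          intro v hv
          rw [hJdef]
          refine (hdist L hL t ht0 0 v).trans ?_
          have h4 : (tdist 0 v : ℝ) ≤ d * D := by exact_mod_cast hS'4 v hv
          calc C₂ * (tdist 0 v : ℝ) / Real.sqrt t ≤ C₂ * (d * D) / Real.sqrt t := by gcongr
            _ = _ := by ring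
        refine (Finset.sum_le_sum h3).trans (le_of_eq ?_)
        rw [Finset.sum_const, nsmul_eq_mul]
      have h3 : (S'.card : ℝ) * (C₂ * d * (D / Real.sqrt t)) ≤
          2 ^ d * Dd * (C₂ * d * e) := by
        have h4 : (D : ℝ) / Real.sqrt t ≤ e := by rw [hea]; linarith
        gcongr
      have h4 : C₁ * ((S'.card : ℝ) * a + t) ≤ C₁ * (2 ^ d * Dd * e + Dd * e) := by
        refine mul_le_mul_of_nonneg_left ?_ hC₁.le
        have h5 : (S'.card : ℝ) * a ≤ 2 ^ d * Dd * e := by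
          have : a ≤ e := by rw [hea]; linarith
          gcongr
        have h6 : t ≤ Dd * e := by
          have h7 : t = Dd * (t / Dd) := by field_simp
          calc t = Dd * (t / Dd) := h7
            _ ≤ Dd * e := by
                refine mul_le_mul_of_nonneg_left ?_ (by linarith)
                rw [hea]; linarith
        linarith
      have h5 : (S'.card : ℝ) * (2 * ∑ m ∈ Finset.Ioo 0 n, Q m) ≤ 2 ^ d * Dd * (2 * (Z * e)) := by
        have h6 : ∑ m ∈ Finset.Ioo 0 n, Q m ≤ Z * e := by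
          refine hQs.trans ?_
          rw [← ha]
          refine mul_le_mul_of_nonneg_left ?_ hZ
          rw [hea]; linarith
        calc (S'.card : ℝ) * (2 * ∑ m ∈ Finset.Ioo 0 n, Q m) ≤ (S'.card : ℝ) * (2 * (Z * e)) := by
              refine mul_le_mul_of_nonneg_left ?_ hcS'0.le
              linarith
          _ ≤ _ := mul_le_mul_of_nonneg_right hcS'1 (by positivity)
      have h6 : Dd * (K₁ * e) = C₁ * (2 ^ d * Dd * e + Dd * e) + 2 ^ d * Dd * (C₂ * d * e) +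
          2 ^ d * Dd * (2 * (Z * e)) := by
        rw [hK₁]; ring
      linarith
    obtain ⟨E, hEd⟩ : ∃ E, E = ∑ v ∈ S', (tv J t n 0 v + NN J t (swap 0 v) +
      2 * ∑ m ∈ Finset.Ioo 0 n, Q m) := ⟨_, rfl⟩
    obtain ⟨P, hPd⟩ : ∃ P, P = ∑ x, (∑ y, qq J (n * t) x y * ψ y) ^ 2 := ⟨_, rfl⟩
    rw [← hEd] at hE ⊢
    rw [← hPd] at hP ⊢
    have hP0 : 0 ≤ P := by rw [hPd]; exact Finset.sum_nonneg fun x _ => sq_nonneg _
    obtain ⟨H, hH⟩ : ∃ H, H = (d : ℝ) ^ 2 * ((ω : ℝ) ^ 2 / (n * t) *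
      (1 / L + 1 / Real.sqrt (n * t)) ^ d) := ⟨_, rfl⟩
    rw [← hH] at hP ⊢
    have hrd0 : 0 < rd := by linarith
    have hDd0 : 0 < Dd := by linarith
    have hWc0 : (0 : ℝ) ≤ W.card := by positivity
    have h7 : (1 / rd) ^ 2 * W.card / Dd * E ≤ zc / rd ^ 2 * (K₁ * e) := by
      calc (1 / rd) ^ 2 * W.card / Dd * E ≤ (1 / rd) ^ 2 * W.card / Dd * (Dd * (K₁ * e)) :=
            mul_le_mul_of_nonneg_left hE (by positivity)
        _ = (W.card : ℝ) * ((K₁ * e) / rd ^ 2) := by field_simp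
        _ ≤ zc * ((K₁ * e) / rd ^ 2) := mul_le_mul_of_nonneg_right hWc (by positivity)
        _ = _ := by ring
    calc (ZZ.card : ℝ) * (1 / rd * 2 / Dd + P / 2 + (1 / rd) ^ 2 * W.card / Dd * E)
        ≤ (ZZ.card : ℝ) * (1 / rd * 2 / Dd + H / 2 + zc / rd ^ 2 * (K₁ * e)) := by
          refine mul_le_mul_of_nonneg_left ?_ (by positivity)
          linarith
      _ ≤ zc * (1 / rd * 2 / Dd + H / 2 + zc / rd ^ 2 * (K₁ * e)) := by
          refine mul_le_mul_of_nonneg_right hZc ?_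
          have hH0 : 0 ≤ H := hP0.trans hP
          positivity
      _ = _ := by field_simp
  -- conclusion
  rw [← hJdef, ← hψ, ← hzc, ← hDd, ← hrd, ← he]
  refine hstep.trans ?_
  obtain ⟨A1, hA1⟩ : ∃ A1, A1 = n * t / (ρ : ℝ) ^ 2 := ⟨_, rfl⟩
  obtain ⟨A2, hA2⟩ : ∃ A2, A2 = zc / (Dd * rd) := ⟨_, rfl⟩
  obtain ⟨A3, hA3⟩ : ∃ A3, A3 = zc * ((ω : ℝ) ^ 2 / (n * t) *
    (1 / L + 1 / Real.sqrt (n * t)) ^ d) := ⟨_, rfl⟩
  obtain ⟨A4, hA4⟩ : ∃ A4, A4 = zc ^ 2 / rd ^ 2 := ⟨_, rfl⟩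
  have hA10 : 0 ≤ A1 := by rw [hA1]; positivity
  have hA20 : 0 ≤ A2 := by rw [hA2]; positivity
  have hA30 : 0 ≤ A3 := by rw [hA3]; positivity
  have hA40 : 0 ≤ A4 := by rw [hA4]; positivity
  have e1 : 2 * d * (n * t) / (ρ : ℝ) ^ 2 = 2 * d * A1 := by rw [hA1]; ring
  have e2 : zc * ((d : ℝ) ^ 2 * ((ω : ℝ) ^ 2 / (n * t) *
        (1 / L + 1 / Real.sqrt (n * t)) ^ d)) / 2 = (d : ℝ) ^ 2 * A3 / 2 := by rw [hA3]; ring
  rw [e1] at hfar
  rw [← hA2, e2, ← hA4] at hnear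
  rw [← hA1, ← hA2, ← hA3, ← hA4]
  have hA4e : 0 ≤ A4 * e := by positivity
  have f1 : 0 ≤ (16 * (d : ℝ) + 4 + d ^ 2 + 2 * K₁ + 16 * C₁) := by positivity
  have f2 : 16 * (d : ℝ) * A1 ≤ (16 * (d : ℝ) + 4 + d ^ 2 + 2 * K₁ + 16 * C₁) * A1 := by
    refine mul_le_mul_of_nonneg_right ?_ hA10
    have : 0 ≤ (d : ℝ) ^ 2 := by positivity
    linarith
  have f3 : 4 * A2 ≤ (16 * (d : ℝ) + 4 + d ^ 2 + 2 * K₁ + 16 * C₁) * A2 := by
    refine mul_le_mul_of_nonneg_right ?_ hA20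
    have : 0 ≤ (d : ℝ) ^ 2 := by positivity
    linarith
  have f4 : (d : ℝ) ^ 2 * A3 ≤ (16 * (d : ℝ) + 4 + d ^ 2 + 2 * K₁ + 16 * C₁) * A3 := by
    refine mul_le_mul_of_nonneg_right ?_ hA30
    linarith
  have f5 : 2 * K₁ * (A4 * e) ≤ (16 * (d : ℝ) + 4 + d ^ 2 + 2 * K₁ + 16 * C₁) * (A4 * e) := by
    refine mul_le_mul_of_nonneg_right ?_ hA4e
    have : 0 ≤ (d : ℝ) ^ 2 := by positivity
    linarith
  have f6 : 16 * C₁ * e ≤ (16 * (d : ℝ) + 4 + d ^ 2 + 2 * K₁ + 16 * C₁) * e := by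
    refine mul_le_mul_of_nonneg_right ?_ he0
    have : 0 ≤ (d : ℝ) ^ 2 := by positivity
    linarith
  have f7 : (16 * (d : ℝ) + 4 + d ^ 2 + 2 * K₁ + 16 * C₁) * (A1 + A2 + A3 + (1 + A4) * e) =
      (16 * (d : ℝ) + 4 + d ^ 2 + 2 * K₁ + 16 * C₁) * A1 +
      (16 * (d : ℝ) + 4 + d ^ 2 + 2 * K₁ + 16 * C₁) * A2 +
      (16 * (d : ℝ) + 4 + d ^ 2 + 2 * K₁ + 16 * C₁) * A3 +
      (16 * (d : ℝ) + 4 + d ^ 2 + 2 * K₁ + 16 * C₁) * (A4 * e) +
      (16 * (d : ℝ) + 4 + d ^ 2 + 2 * K₁ + 16 * C₁) * e := by ring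
  rw [f7]
  linarith [hfar, hnear, f2, f3, f4, f5, f6]

end Pool.Agent.Q295.LS
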